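import Pool.Agent.H66.AV.TF

/-!
# Amplification
-/

set_option autoImplicit false

namespace Pool.Agent.H47.AVH

open Pool.Agent.H66.AV Pool.Agent.H66.IQ

private theorem val01 {k : ℕ} (O : List Bool → Bool) (G : Prot k) : 0 ≤ G.val O ∧ G.val O ≤ 1 := by
  induction G with
  | test T =>
    unfold Prot.val
    split_ifs <;> norm_num
  | coin l r hl hr =>
    unfold Prot.val
    constructor
    · linarith [hl.1, hr.1]
    · linarith [hl.2, hr.2]
  | say l r hl hr =>
    unfold Prot.val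
    exact ⟨le_max_of_le_left hl.1, max_le hl.2 hr.2⟩

private theorem num_ge (a : ℕ) (ha : 1 ≤ a) : (a : ℝ) ≤ 4 ^ a * (2 / 3 : ℝ) ^ (2 * a + 1) := by
  have h0 : (4 : ℝ) ^ a * (2 / 3 : ℝ) ^ (2 * a + 1) = 2 / 3 * (16 / 9) ^ a := by
    rw [pow_succ, pow_mul, ← mul_assoc, ← mul_pow, mul_comm]
    norm_num
  rw [h0]
  induction a, ha using Nat.le_induction with
  | base => norm_num
  | succ n hn ih =>
    rcases Nat.lt_or_ge n 2 with h | h
    · have h1 : n = 1 := by omega
      subst h1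
      norm_num
    · have h2 : (2 : ℝ) ≤ n := by exact_mod_cast h
      have ih' := ih (by
        rw [pow_succ, pow_mul, ← mul_assoc, ← mul_pow, mul_comm]
        norm_num)
      rw [pow_succ]
      push_cast
      nlinarith

theorem pf_AMP (hPOW : T_POW) : T_AMP := by
  intro k G a ha
  obtain ⟨⟨G₁, m1, b1, v1⟩, -⟩ := hPOW k G (2 * a + 1)
  obtain ⟨-, ⟨G₂, m2, b2, v2⟩⟩ := hPOW k G₁ (4 ^ a)
  refine ⟨G₂, ?_, ?_, ?_⟩
  · calc G₂.moves ≤ 4 ^ a * G₁.moves := m2
      _ ≤ 4 ^ a * ((2 * a + 1) * G.moves) := Nat.mul_le_mul_left _ m1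
      _ = (2 * a + 1) * 4 ^ a * G.moves := by ring
  · intro d s h
    have h1 := b2 _ _ (b1 d s h)
    have h2 : 4 ^ a * ((2 * a + 1) * d) = (2 * a + 1) * 4 ^ a * d := by ring
    rwa [h2] at h1
  · intro O
    obtain ⟨g0, g1⟩ := val01 O G
    have e2 := v2 O
    rw [v1 O] at e2
    set q : ℝ := G.val O ^ (2 * a + 1) with hq
    have q0 : 0 ≤ q := pow_nonneg g0 _
    have q1 : q ≤ 1 := pow_le_one₀ g0 g1
    constructor
    · intro h
      have h1 : (2 / 3 : ℝ) ^ (2 * a + 1) ≤ q := pow_le_pow_left₀ (by norm_num) h _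
      have h2 : (a : ℝ) ≤ 4 ^ a * q :=
        (num_ge a ha).trans (mul_le_mul_of_nonneg_left h1 (by positivity))
      have h3 : (1 - q) ^ 4 ^ a ≤ Real.exp (-q) ^ 4 ^ a :=
        pow_le_pow_left₀ (by linarith) (by linarith [Real.add_one_le_exp (-q)]) _
      have h4 : Real.exp (-q) ^ 4 ^ a ≤ Real.exp (-(a : ℝ)) := by
        rw [← Real.exp_nat_mul]
        apply Real.exp_le_exp.mpr
        push_cast
        linarith
      have h5 : Real.exp (-(a : ℝ)) ≤ (1 / 2) ^ a := by
        have h6 : Real.exp (-(a : ℝ)) = Real.exp (-1) ^ a := by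
          rw [← Real.exp_nat_mul]; ring_nf
        rw [h6]
        apply pow_le_pow_left₀ (Real.exp_pos _).le
        have h7 : (2 : ℝ) ≤ Real.exp 1 := by
          have := Real.add_one_le_exp (1 : ℝ)
          linarith
        rw [Real.exp_neg, one_div]
        exact inv_anti₀ (by norm_num) h7
      linarith
    · intro h
      have h1 : q ≤ (1 / 3 : ℝ) ^ (2 * a + 1) := pow_le_pow_left₀ g0 h _
      have h2 := one_add_mul_le_pow (show (-2 : ℝ) ≤ -q by linarith) (4 ^ a)
      have h3 : (4 : ℝ) ^ a * q ≤ (1 / 2) ^ a := by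
        calc (4 : ℝ) ^ a * q ≤ 4 ^ a * (1 / 3 : ℝ) ^ (2 * a + 1) :=
              mul_le_mul_of_nonneg_left h1 (by positivity)
          _ = 1 / 3 * (4 / 9) ^ a := by
              rw [pow_succ, pow_mul, ← mul_assoc, ← mul_pow, mul_comm]
              norm_num
          _ ≤ 1 * (1 / 2) ^ a := by
              apply mul_le_mul (by norm_num) _ (by positivity) (by norm_num)
              exact pow_le_pow_left₀ (by norm_num) (by norm_num) _
          _ = (1 / 2) ^ a := one_mul _
      have h4 : (1 - q) ^ 4 ^ a = (1 + -q) ^ 4 ^ a := by ring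
      rw [h4] at e2
      push_cast at h2
      linarith

end Pool.Agent.H47.AVH
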