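import Pool.Agent.H70.PX.Hlm
import Pool.Agent.H66.AV.TF

/-!
# The language `alang k` is in the level `k + 1`
-/

set_option autoImplicit false

namespace Pool.Agent.H47.AVH

open Finset Pool.Agent.H6.NB Pool.Agent.H70.OQ Pool.Agent.H62.PW.GLM Pool.Agent.H66.AV

/-- the decision tree of the machine -/
private def tra (k : ℕ) (y : List Bool) : List (List Bool) → DT
  | [] => DT.leaf false
  | u :: vs => if u.length = y.length then
      chk false (2 * u.length) (false :: (hdr k y ++ u)) vs else DT.leaf false

private theorem ari (k n : ℕ) :
    2 ^ (k + 1) * n + (k + 2) ≤ n ^ (2 ^ (k + 2) + (k + 2)) + (2 ^ (k + 2) + (k + 2)) := by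
  rcases Nat.eq_zero_or_pos n with rfl | hn
  · rw [mul_zero, zero_add]
    exact (Nat.le_add_left _ _).trans (Nat.le_add_left _ _)
  · have h1 := arith k n
    have h2 : n ^ 2 ^ (k + 2) ≤ n ^ (2 ^ (k + 2) + (k + 2)) :=
      Nat.pow_le_pow_right hn (Nat.le_add_right _ _)
    omega

private theorem len0 (k : ℕ) (y u : List Bool) :
    (false :: (hdr k y ++ u)).length = k + 2 + y.length + u.length := by
  simp only [hdr, List.length_cons, List.length_append, List.length_replicate]
  omega

/-- the machine -/
private def macha (k : ℕ) : Machine (k + 1) where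
  c := 2 ^ (k + 2) + (k + 2)
  tree := tra k
  depth_le := by
    intro x ws _ _
    have h1 : 1 ≤ x.length ^ (2 ^ (k + 2) + (k + 2)) + (2 ^ (k + 2) + (k + 2)) := by
      have := ari k x.length
      omega
    cases ws with
    | nil => simp [tra, DT.depth]
    | cons u vs =>
      simp only [tra]
      split_ifs
      · exact (chk_depth _ _ _ _).trans h1
      · simp [DT.depth]
  short := by
    intro x ws hws _
    cases ws with
    | nil => trivial
    | cons u vs =>
      rw [List.length_cons, Nat.add_right_cancel_iff] at hws
      simp only [tra]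
      split_ifs with h
      · apply chk_short
        have h2 := ari k x.length
        rw [len0, hws, h]
        have h3 : 2 ^ k * (2 * x.length) = 2 ^ (k + 1) * x.length := by rw [pow_succ]; ring
        rw [h3]
        omega
      · trivial

theorem pf_AML : T_AML := by
  intro k
  refine ⟨macha k, fun O => ?_⟩
  ext y
  have hR0 : (fun w : List Bool => w.length ≤ y.length ^ (macha k).c + (macha k).c) [] :=
    Nat.zero_le _
  change (∃ u : List Bool, u.length ≤ y.length ^ (macha k).c + (macha k).c ∧
    Alt (fun w => w.length ≤ y.length ^ (macha k).c + (macha k).c) false k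
      (fun vs => (tra k y (u :: vs)).eval O = true)) ↔
    ∃ u : List Bool, u.length = y.length ∧ ¬ Nd O k (2 * u.length) (false :: (hdr k y ++ u))
  refine exists_congr fun u => ?_
  by_cases h : u.length = y.length
  · have h1 : (fun vs => (tra k y (u :: vs)).eval O = true) =
        fun vs => (chk false (2 * u.length) (false :: (hdr k y ++ u)) vs).eval O = true := by
      funext vs
      simp only [tra, if_pos h]
    have hc := ari k y.length
    have h5 : 2 ^ k * (2 * u.length) = 2 ^ (k + 1) * y.length := by rw [pow_succ, h]; ring
    rw [h1, (alt_chk O k (2 * u.length) (false :: (hdr k y ++ u)) (fun v hv => ?_)).2]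
    · constructor
      · rintro ⟨-, h2⟩
        exact ⟨h, h2⟩
      · rintro ⟨-, h2⟩
        refine ⟨?_, h2⟩
        rw [h]
        change y.length ≤ y.length ^ (2 ^ (k + 2) + (k + 2)) + (2 ^ (k + 2) + (k + 2))
        have h6 : y.length ≤ 2 ^ (k + 1) * y.length :=
          Nat.le_mul_of_pos_left _ (Nat.two_pow_pos _)
        omega
    · change v.length ≤ y.length ^ (2 ^ (k + 2) + (k + 2)) + (2 ^ (k + 2) + (k + 2))
      rw [h5] at hv
      omega
  · have h1 : (fun vs => (tra k y (u :: vs)).eval O = true) =
        fun _ => false = true := by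
      funext vs
      simp only [tra, if_neg h, DT.eval]
    rw [h1, (alt_const hR0 _ k).2]
    constructor
    · rintro ⟨-, h2⟩
      exact absurd h2 Bool.false_ne_true
    · rintro ⟨h2, -⟩
      exact absurd h2 h

end Pool.Agent.H47.AVH
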